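import Mathlib
import Pool.Agent.Lib.MP_2a1a00_nt.C.One

/-!
The asymptotic formula for the third power of the error term of the divisor problem of order three
against a power of an error term of degree two.
-/

namespace Pool.Agent.Lib.MP_2a1a00_nt.Old.Cube

open Pool.Agent.Lib.MP_2a1a00_nt

theorem result : 0 < c3 ∧ ∀ (F : Sel) (a : ℕ) (M : ℂ), F.deg = 2 →
    ((a = 0 ∧ M = 1) ∨ (a = 1 ∧ M = 0) ∨ (a = 2 ∧ ∃ δ : ℝ, 0 < δ ∧ ∀ ε : ℝ, 0 < ε →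
      ∃ C : ℝ, ∀ T : ℝ, 1 ≤ T → ‖(∫ x in (1 : ℝ)..T, F.E x ^ 2) - M * (T ^ (3 / 2 : ℝ) : ℝ)‖ ≤
        C * T ^ (3 / 2 - δ + ε))) →
    (∀ T : ℝ, 1 ≤ T →
      IntervalIntegrable (fun x => F.E x ^ a * Del 3 x ^ 3) MeasureTheory.volume 1 T) ∧
    ∃ δ : ℝ, 0 < δ ∧ ∃ C : ℝ, ∀ T : ℝ, 1 ≤ T →
      ‖(∫ x in (1 : ℝ)..T, F.E x ^ a * Del 3 x ^ 3) -
        2 * (4 + a) / (8 + a) * M * c3 * (T ^ (2 + (a : ℝ) / 4) : ℝ)‖ ≤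
        C * T ^ (2 + (a : ℝ) / 4 - δ) :=
  ⟨c3_pos, fun F a _ h hM => ⟨fun _ hT => cube_int F a le_rfl hT, main_fam h hM⟩⟩

end Pool.Agent.Lib.MP_2a1a00_nt.Old.Cube
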