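import Mathlib
import Pool.Agent.Lib.MP_2a1a00_nt.Main

/-!
A bound for the twisted hybrid moment of two error terms when the second series is a product.
-/

namespace Pool.Agent.Results.MP_2a1a00_nt.Product

open Pool.Agent.Lib.MP_2a1a00_nt

theorem result (F₁ F₂ G H L : Sel) (θ : ℝ) (hθ₀ : 0 ≤ θ) (hθ₁ : θ ≤ 1) (h₁ : F₁.deg ≤ 2)
    (hG : G.deg ≤ 2) (hH : H.deg ≤ 2 + 4 * θ) (h₂ : ∀ s : ℂ, 1 < s.re → F₂.L s = G.L s * H.L s)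
    (hL : L.deg ≤ 1) :
    (∀ T : ℝ, 1 ≤ T → IntervalIntegrable (hyb F₁ F₂ L) MeasureTheory.volume 1 T) ∧
      ∀ ε : ℝ, 0 < ε → ∃ C : ℝ, ∀ T : ℝ, 1 ≤ T →
        ‖∫ x in (1 : ℝ)..T, hyb F₁ F₂ L x‖ ≤ C * T ^ (3 / 2 + 2 * θ / (2 * θ + 3) + ε) :=
  ⟨fun _ hT => hyb_int F₁ F₂ L le_rfl hT, fun _ hε => main_prod hθ₀ hθ₁ h₁ hG hH h₂ hL hε⟩

end Pool.Agent.Results.MP_2a1a00_nt.Product
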