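import Mathlib
import Pool.Agent.Lib.MP_2a1a00_nt.V.Q3

/-!
The asymptotic formula for the twisted hybrid moment of the squares of two error terms of degrees
two and three.
-/

namespace Pool.Agent.Results.MP_2a1a00_nt.SquareSquare

open Pool.Agent.Lib.MP_2a1a00_nt

theorem result (P : Polynomial ℝ) : ∃ Q : Polynomial ℝ, Q.degree = P.degree ∧
    Polynomial.C (13 / 6) * Q + Polynomial.derivative Q = P + Polynomial.derivative P ∧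
    ∀ (F₁ F₂ L : Sel) (C₁ C₂ : ℂ), F₁.deg = 2 → F₂.deg = 3 → F₂.Split → L.deg ≤ 1 → L.QP →
      (∃ δ : ℝ, 0 < δ ∧ ∀ ε : ℝ, 0 < ε → ∃ C : ℝ, ∀ T : ℝ, 1 ≤ T →
        ‖(∫ x in (1 : ℝ)..T, F₁.E x ^ 2) - C₁ * (T ^ (3 / 2 : ℝ) : ℝ)‖ ≤ C * T ^ (3 / 2 - δ + ε)) →
      (∃ δ : ℝ, 0 < δ ∧ ∀ ε : ℝ, 0 < ε → ∃ C : ℝ, ∀ T : ℝ, 1 ≤ T →
        ‖(∫ x in (1 : ℝ)..T, F₂.E x ^ 2) - C₂ * (T ^ (5 / 3 : ℝ) : ℝ)‖ ≤ C * T ^ (5 / 3 - δ + ε)) →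
      (∃ η : ℝ, 0 < η ∧ ∃ C : ℝ, ∀ T : ℝ, 1 ≤ T →
        |(∫ t in (1 : ℝ)..T, ‖L.L (1 / 2 + t * Complex.I)‖ ^ 2) - T * P.eval (Real.log T)| ≤
          C * T ^ (1 - η)) →
      (∀ T : ℝ, 1 ≤ T → IntervalIntegrable (hy F₁ F₂ L 2 2) MeasureTheory.volume 1 T) ∧
        ∃ δ : ℝ, 0 < δ ∧ ∃ C : ℝ, ∀ T : ℝ, 1 ≤ T →
          ‖(∫ x in (1 : ℝ)..T, hy F₁ F₂ L 2 2 x) -
            5 / 2 * C₁ * C₂ * (T ^ (13 / 6 : ℝ) * Q.eval (Real.log T) : ℝ)‖ ≤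
            C * T ^ (13 / 6 - δ) := by
  obtain ⟨Q, h1, h2⟩ := poly_Q (c := 13 / 6) (by norm_num) P
  refine ⟨Q, h1, h2, fun F₁ F₂ L C₁ C₂ h₁ h₂ hs hL hq ⟨_, d1, a1⟩ ⟨_, d2, a2⟩ ⟨_, d3, _, a3⟩ =>
    ⟨fun _ hT => (hy_int F₁ F₂ L 2 2 le_rfl hT).1, main_two h₁ h₂ hs hL hq h2 d1 d2 d3 a1 a2 a3⟩⟩

end Pool.Agent.Results.MP_2a1a00_nt.SquareSquare
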